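import Mathlib
import Pool.Agent.P8H24.PG.Stm

/-!
Package KR of project PG (Kronecker for finitely generated abelian groups).
-/

set_option autoImplicit false

open Finset Polynomial

namespace Pool.Agent.P8H4.PG

open Pool.Agent.P8H24.PG

/-- A root of modulus larger than one of the characteristic polynomial of an integer matrix gives
a left eigenvector over the complex numbers. -/
theorem exists_left {n : Type} [Fintype n] [DecidableEq n] (A : Matrix n n ℤ) (l : ℂ)
    (hl : ((A.charpoly).map (Int.castRingHom ℂ)).eval l = 0) :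
    ∃ v : n → ℂ, v ≠ 0 ∧ ∀ x : n → ℤ,
      v ⬝ᵥ (fun i => ((A.mulVec x i : ℤ) : ℂ)) = l * v ⬝ᵥ (fun i => ((x i : ℤ) : ℂ)) := by
  rw [← Matrix.charpoly_map, Matrix.eval_charpoly] at hl
  obtain ⟨v, hv0, hv⟩ := Matrix.exists_vecMul_eq_zero_iff.mpr hl
  refine ⟨v, hv0, fun x => ?_⟩
  have h1 : Matrix.vecMul v (A.map (Int.castRingHom ℂ)) = l • v := by
    rw [Matrix.vecMul_sub, sub_eq_zero] at hv
    rw [← hv]
    ext i
    simp [Matrix.scalar_apply, Matrix.vecMul_diagonal, mul_comm]
  have h2 : (fun i => ((A.mulVec x i : ℤ) : ℂ)) =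
      (A.map (Int.castRingHom ℂ)).mulVec (fun i => ((x i : ℤ) : ℂ)) := by
    ext i
    simp [Matrix.mulVec, dotProduct]
  rw [h2, Matrix.dotProduct_mulVec, h1, smul_dotProduct, smul_eq_mul]

/-- If no complex root of the monic polynomial `P` has modulus larger than one and `P(0) ≠ 0`
then `P` divides a power of some `X^m - 1`. -/
theorem dvd_of_roots (P : ℤ[X]) (hP : P.Monic) (h0 : P.coeff 0 ≠ 0)
    (h : ∀ l : ℂ, (P.map (Int.castRingHom ℂ)).eval l = 0 → ‖l‖ ≤ 1) :
    ∃ m : ℕ, 0 < m ∧ P ∣ (X ^ m - 1) ^ P.natDegree := by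
  classical
  set Q : ℂ[X] := P.map (Int.castRingHom ℂ) with hQ
  have hQm : Q.Monic := hP.map _
  have hmahler : Q.mahlerMeasure = 1 := by
    rw [mahlerMeasure_eq_leadingCoeff_mul_prod_roots, hQm.leadingCoeff, norm_one, one_mul]
    apply Multiset.prod_eq_one
    intro a ha
    rw [Multiset.mem_map] at ha
    obtain ⟨z, hz, rfl⟩ := ha
    rw [mem_roots hQm.ne_zero] at hz
    exact max_eq_left (h z hz)
  have hroot : ∀ z ∈ Q.roots, ∃ n, 0 < n ∧ z ^ n = 1 := by
    intro z hz
    have hz0 : z ≠ 0 := by
      rintro rfl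
      rw [mem_roots hQm.ne_zero, IsRoot.def, ← coeff_zero_eq_eval_zero, hQ, coeff_map] at hz
      apply h0
      simpa using hz
    exact pow_eq_one_of_mahlerMeasure_eq_one hmahler hz0 hz
  choose! e he1 he2 using hroot
  refine ⟨∏ z ∈ Q.roots.toFinset, e z, Finset.prod_pos fun z hz => he1 z (by simpa using hz), ?_⟩
  set m := ∏ z ∈ Q.roots.toFinset, e z with hm
  rw [← map_dvd_map (Int.castRingHom ℂ) (RingHom.injective_int _) hP]
  have hsplit : Q = (Q.roots.map fun a => X - C a).prod := by
    have := (IsAlgClosed.splits Q).eq_prod_roots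
    rw [hQm.leadingCoeff, C_1, one_mul] at this
    exact this
  have hcard : P.natDegree = Multiset.card Q.roots := by
    rw [← (IsAlgClosed.splits Q).natDegree_eq_card_roots, hQ, hP.natDegree_map]
  have hpow : ∀ z ∈ Q.roots, z ^ m = 1 := by
    intro z hz
    obtain ⟨c, hc⟩ := Finset.dvd_prod_of_mem e (show z ∈ Q.roots.toFinset by simpa using hz)
    rw [hm, hc, pow_mul, he2 z hz, one_pow]
  rw [← hQ, hsplit, hcard]
  simp only [Polynomial.map_pow, Polynomial.map_sub, map_X, Polynomial.map_one]
  rw [← Multiset.prod_replicate, ← Multiset.map_const']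
  apply Multiset.prod_dvd_prod_of_dvd
  intro a ha
  rw [dvd_iff_isRoot]
  simp [hpow a ha]

theorem iter_eq {M : Type} [AddCommGroup M] (F : Module.End ℤ M) (f : M → M)
    (hf : ∀ x, F x = f x) (m k : ℕ) (x : M) :
    (fun y : M => (f^[m]) y - y)^[k] x = ((F ^ m - 1) ^ k) x := by
  have h1 : ∀ (m : ℕ) (y : M), (F ^ m) y = (f^[m]) y := by
    intro m
    induction m with
    | zero => intro y; rfl
    | succ m ih =>
      intro y
      rw [pow_succ, Module.End.mul_apply, ih, hf, Function.iterate_succ_apply]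
  induction k generalizing x with
  | zero => rfl
  | succ k ih =>
    rw [Function.iterate_succ_apply, ih, pow_succ, Module.End.mul_apply, LinearMap.sub_apply, h1]
    rfl

/-- `F^(a b) - 1` is a multiple of `F^a - 1`. -/
theorem exists_mul {M : Type} [AddCommGroup M] (F : Module.End ℤ M) (a b : ℕ) :
    ∃ R : Module.End ℤ M, (F ^ (a * b) - 1) = R * (F ^ a - 1) ∧ Commute R (F ^ a - 1) := by
  obtain ⟨R, hR⟩ := sub_dvd_pow_sub_pow (X ^ a : ℤ[X]) 1 b
  refine ⟨aeval F R, ?_, ?_⟩
  · have := congrArg (aeval F) hR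
    simp only [map_sub, map_mul, map_pow, aeval_X, map_one, one_pow] at this
    rw [pow_mul, this]
    have h1 : aeval F (X ^ a - 1 : ℤ[X]) = F ^ a - 1 := by simp
    rw [← h1, ← map_mul, ← map_mul, mul_comm]
  · have h1 : aeval F (X ^ a - 1 : ℤ[X]) = F ^ a - 1 := by simp
    rw [← h1]
    show _ * _ = _ * _
    rw [← map_mul, ← map_mul, mul_comm]

/-- **Package KR.** -/
theorem kr : S_KR := by
  intro M _ _ f
  classical
  let F : Module.End ℤ M := f.toIntLinearEquiv.toLinearMap
  have hFf : ∀ x, F x = f x := fun x => rfl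
  let T : Submodule ℤ M := Submodule.torsion ℤ M
  have hT1 : ∀ x, x ∈ T ↔ f x ∈ T := by
    intro x
    simp only [T, Submodule.mem_torsion_iff]
    constructor
    · rintro ⟨a, ha⟩
      refine ⟨a, ?_⟩
      have : (a : ℤ) • x = 0 := ha
      show (a : ℤ) • f x = 0
      rw [← map_zsmul, this, map_zero]
    · rintro ⟨a, ha⟩
      refine ⟨a, ?_⟩
      have : (a : ℤ) • f x = 0 := ha
      show (a : ℤ) • x = 0
      rw [← map_zsmul] at this
      exact (map_eq_zero_iff f f.injective).mp this
  let G : Module.End ℤ (M ⧸ T) := T.mapQ T F (fun x hx => (hT1 x).mp hx)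
  have hG : ∀ x : M, G (T.mkQ x) = T.mkQ (F x) := fun x => rfl
  have hfree : Module.Free ℤ (M ⧸ T) := by
    have : Module.IsTorsionFree ℤ (M ⧸ T) := inferInstance
    infer_instance
  let b := Module.Free.chooseBasis ℤ (M ⧸ T)
  let A := LinearMap.toMatrix b b G
  have hA : ∀ y : M ⧸ T, A.mulVec (b.repr y) = b.repr (G y) := by
    intro y
    exact LinearMap.toMatrix_mulVec_repr b b G y
  by_cases hex : ∃ l : ℂ, 1 < ‖l‖ ∧ ((A.charpoly).map (Int.castRingHom ℂ)).eval l = 0
  · right
    obtain ⟨l, hl1, hl⟩ := hex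
    refine ⟨l, hl1, ?_⟩
    obtain ⟨v, hv0, hv⟩ := exists_left A l hl
    let h : M →+ ℂ :=
      { toFun := fun x => v ⬝ᵥ (fun i => ((b.repr (T.mkQ x) i : ℤ) : ℂ))
        map_zero' := by simp [dotProduct]
        map_add' := by
          intro x y
          rw [← dotProduct_add]
          congr 1
          ext i
          simp }
    refine ⟨h, ?_, ?_⟩
    · intro h0
      obtain ⟨i, hi⟩ := Function.ne_iff.mp hv0
      obtain ⟨x, hx⟩ := T.mkQ_surjective (b i)
      have h1 : h x = v i := by
        show v ⬝ᵥ (fun j => ((b.repr (T.mkQ x) j : ℤ) : ℂ)) = v i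
        rw [hx, Module.Basis.repr_self]
        simp only [dotProduct, Finsupp.single_apply]
        simp
      rw [h0] at h1
      exact hi h1.symm
    · intro x
      show v ⬝ᵥ (fun i => ((b.repr (T.mkQ (F x)) i : ℤ) : ℂ)) =
        l * v ⬝ᵥ (fun i => ((b.repr (T.mkQ x) i : ℤ) : ℂ))
      rw [← hv, hA, hG]
  · left
    push Not at hex
    have hAinj : A.det ≠ 0 := by
      intro hdet
      obtain ⟨w, hw0, hw⟩ := Matrix.exists_mulVec_eq_zero_iff.mpr hdet
      let y : M ⧸ T := b.repr.symm (Finsupp.equivFunOnFinite.symm w)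
      have hy : ⇑(b.repr y) = w := by simp [y]
      have h1 := hA y
      rw [hy, hw] at h1
      have h2 : G y = 0 := by
        apply b.repr.injective
        rw [map_zero]
        apply DFunLike.coe_injective
        exact h1.symm
      obtain ⟨x, hx⟩ := T.mkQ_surjective y
      rw [← hx, hG] at h2
      have h3 : F x ∈ T := by simpa using h2
      have h4 : x ∈ T := (hT1 x).mpr h3
      have h5 : y = 0 := by rw [← hx]; simpa using h4
      apply hw0
      rw [← hy, h5, map_zero]
      rfl
    have h0 : A.charpoly.coeff 0 ≠ 0 := by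
      intro hc
      apply hAinj
      rw [Matrix.det_eq_sign_charpoly_coeff, hc, mul_zero]
    obtain ⟨m, hm0, hm⟩ := dvd_of_roots A.charpoly A.charpoly_monic h0
      (fun l hl => not_lt.mp fun h => hex l h hl)
    set n := A.charpoly.natDegree with hn
    -- G satisfies the polynomial
    have hGz : (G ^ m - 1) ^ n = 0 := by
      obtain ⟨R, hR⟩ := hm
      have h1 : aeval G A.charpoly = 0 := by
        have := LinearMap.aeval_self_charpoly G
        rw [LinearMap.charpoly_def] at this
        rwa [show LinearMap.toMatrix (Module.Free.chooseBasis ℤ (M ⧸ T))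
          (Module.Free.chooseBasis ℤ (M ⧸ T)) G = A from rfl] at this
      have h2 : aeval G ((X ^ m - 1 : ℤ[X]) ^ n) = 0 := by
        rw [hR, map_mul, h1, zero_mul]
      simpa using h2
    have hFT : ∀ x, ((F ^ m - 1) ^ n) x ∈ T := by
      intro x
      have h1 : ∀ (k : ℕ) (x : M), (G ^ k) (T.mkQ x) = T.mkQ ((F ^ k) x) := by
        intro k
        induction k with
        | zero => intro x; rfl
        | succ k ih =>
          intro x
          rw [pow_succ, pow_succ, Module.End.mul_apply, Module.End.mul_apply, hG, ih]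
      have h2 : ∀ (k : ℕ) (x : M), ((G ^ m - 1) ^ k) (T.mkQ x) = T.mkQ (((F ^ m - 1) ^ k) x) := by
        intro k
        induction k with
        | zero => intro x; rfl
        | succ k ih =>
          intro x
          rw [pow_succ, pow_succ, Module.End.mul_apply, Module.End.mul_apply]
          rw [← ih]
          congr 1
          rw [LinearMap.sub_apply, LinearMap.sub_apply, h1, map_sub]
          rfl
      have h3 := h2 n x
      rw [hGz] at h3
      have h4 : T.mkQ (((F ^ m - 1) ^ n) x) = 0 := h3.symm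
      simpa using h4
    -- the torsion part is finite
    have hTfin : Finite T := by
      have : Module.Finite ℤ T := inferInstance
      apply Module.finite_of_fg_torsion
      exact Submodule.torsion_isTorsion
    let g : Equiv.Perm T :=
      { toFun := fun x => ⟨f x, (hT1 x).mp x.2⟩
        invFun := fun x => ⟨f.symm x, (hT1 _).mpr (by simp)⟩
        left_inv := fun x => by simp
        right_inv := fun x => by simp }
    obtain ⟨m', hm', hgm⟩ := isOfFinOrder_iff_pow_eq_one.mp (isOfFinOrder_of_finite g)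
    have hid : ∀ x ∈ T, (F ^ m') x = x := by
      intro x hx
      have h1 : ∀ (k : ℕ) (x : T), ((g ^ k) x : M) = (F ^ k) (x : M) := by
        intro k
        induction k with
        | zero => intro x; rfl
        | succ k ih =>
          intro x
          rw [pow_succ, pow_succ, Module.End.mul_apply, Equiv.Perm.mul_apply, ih]
          rfl
      have h2 := h1 m' ⟨x, hx⟩
      rw [hgm] at h2
      exact h2.symm
    refine ⟨m * m', Nat.mul_pos hm0 hm', n + 1, fun x => ?_⟩
    rw [iter_eq F f hFf]
    obtain ⟨R, hR, hRc⟩ := exists_mul F m m'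
    rw [pow_succ', Module.End.mul_apply]
    have h6 : ((F ^ (m * m') - 1) ^ n) x ∈ T := by
      rw [hR, hRc.mul_pow, (hRc.pow_pow n n).eq, Module.End.mul_apply]
      exact hFT _
    have h7 : ∀ y ∈ T, (F ^ (m * m')) y = y := by
      intro y hy
      rw [mul_comm, pow_mul]
      have : ∀ k : ℕ, ((F ^ m') ^ k) y = y := by
        intro k
        induction k with
        | zero => rfl
        | succ k ih => rw [pow_succ, Module.End.mul_apply, hid y hy, ih]
      exact this m
    rw [LinearMap.sub_apply, h7 _ h6]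
    simp

end Pool.Agent.P8H4.PG
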