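import Mathlib
import Pool.Agent.P8H24.PG.Stm
import Pool.Agent.P8H4.PG.Kr

/-!
Package GR1 of project PG: the chain from the derived series.
-/

set_option autoImplicit false

open scoped commutatorElement

namespace Pool.Agent.P8H4.PG

open Pool.Agent.P8H24.PG Pool.Agent.Helper611.PcGrp

variable {Γ : Type} [Group Γ]

/-- the derived series of a subgroup, as subgroups of the whole group -/
def E (C : Subgroup Γ) : ℕ → Subgroup Γ
  | 0 => C
  | i + 1 => ⁅E C i, E C i⁆

theorem E_char (C : Subgroup Γ) (hC : C.Characteristic) (i : ℕ) : (E C i).Characteristic := by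
  induction i with
  | zero => exact hC
  | succ i ih =>
    have := ih
    exact Subgroup.commutator_characteristic _ _

theorem E_eq (C : Subgroup Γ) (i : ℕ) : E C i = (derivedSeries C i).map C.subtype := by
  induction i with
  | zero => rw [derivedSeries_zero, ← MonoidHom.range_eq_map, Subgroup.range_subtype, E]
  | succ i ih => rw [E, derivedSeries_succ, Subgroup.map_commutator, ih]

theorem E_bot (C : Subgroup Γ) {l : ℕ} (hl : E C l = ⊥) (i : ℕ) (hi : l ≤ i) : E C i = ⊥ := by
  induction i, hi using Nat.le_induction with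
  | base => exact hl
  | succ i _ ih => rw [E, ih, Subgroup.commutator_bot_left]

theorem E_anti (C : Subgroup Γ) (hC : C.Characteristic) (i : ℕ) : E C (i + 1) ≤ E C i := by
  have := E_char C hC i
  exact Subgroup.commutator_le_left _ _

/-- the map induced on the abelianization of a characteristic subgroup -/
noncomputable def res (σ : Γ ≃* Γ) (K : Subgroup Γ) (hK : ∀ x, σ x ∈ K ↔ x ∈ K) : K ≃* K where
  toFun x := ⟨σ x, (hK x).mpr x.2⟩
  invFun x := ⟨σ.symm x, (hK _).mp (by simp)⟩
  left_inv x := by simp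
  right_inv x := by simp
  map_mul' x y := by simp

/-- the additive group `K / [K, K]` -/
abbrev Mab (K : Subgroup Γ) : Type := Additive (Abelianization K)

/-- the projection -/
def pr (K : Subgroup Γ) (x : K) : Mab K := Additive.ofMul (Abelianization.of x)

noncomputable def fab (σ : Γ ≃* Γ) (K : Subgroup Γ) (hK : ∀ x, σ x ∈ K ↔ x ∈ K) : Mab K ≃+ Mab K :=
  MulEquiv.toAdditive (res σ K hK).abelianizationCongr

theorem fab_pr (σ : Γ ≃* Γ) (K : Subgroup Γ) (hK : ∀ x, σ x ∈ K ↔ x ∈ K) (x : K) :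
    fab σ K hK (pr K x) = pr K (res σ K hK x) := rfl

theorem pr_mul (K : Subgroup Γ) (x y : K) : pr K (x * y) = pr K x + pr K y := by
  simp [pr]

theorem pr_surj (K : Subgroup Γ) (z : Mab K) : ∃ x, pr K x = z := by
  obtain ⟨x, hx⟩ := QuotientGroup.mk_surjective (Additive.toMul z)
  exact ⟨x, congrArg Additive.ofMul hx⟩

theorem pr_eq_zero (K : Subgroup Γ) (x : K) (h : pr K x = 0) : (x : Γ) ∈ ⁅K, K⁆ := by
  have h1 : x ∈ commutator K := by
    rw [← Abelianization.ker_of]
    exact h
  have h2 : (commutator K).map K.subtype = ⁅K, K⁆ := by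
    rw [commutator_def, Subgroup.map_commutator, ← MonoidHom.range_eq_map, Subgroup.range_subtype]
  rw [← h2]
  exact ⟨x, h1, rfl⟩

theorem finite_Mab (hΓ : MaxC Γ) (K : Subgroup Γ) : Module.Finite ℤ (Mab K) := by
  have h1 : Group.FG K := hΓ.sub K
  have h2 : Group.FG (Abelianization K) := inferInstanceAs (Group.FG (K ⧸ commutator K))
  rw [Module.Finite.iff_addGroup_fg]
  infer_instance

/-- the factor is quasi-unipotent -/
theorem quasi (hkr : S_KR) (hΓ : MaxC Γ) (σ : Γ ≃* Γ) (hσ : NoExpansion σ) (K : Subgroup Γ)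
    (hK : ∀ x, σ x ∈ K ↔ x ∈ K) :
    ∃ m : ℕ, 0 < m ∧ ∃ k : ℕ, ∀ x : Mab K, (fun y : Mab K => ((fab σ K hK)^[m]) y - y)^[k] x = 0 := by
  classical
  have := finite_Mab hΓ K
  rcases hkr (Mab K) (fab σ K hK) with h | ⟨l, hl, h, h0, hh⟩
  · exact h
  · exfalso
    apply h0
    have h1 := hσ K (fun x => if hx : x ∈ K then h (pr K ⟨x, hx⟩) else 0) l hl hK
      (by
        intro x hx y hy
        rw [dif_pos hx, dif_pos hy, dif_pos (K.mul_mem hx hy), ← map_add, ← pr_mul]
        rfl)
      (by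
        intro x hx
        rw [dif_pos hx, dif_pos ((hK x).mpr hx), ← hh, fab_pr]
        rfl)
    refine AddMonoidHom.ext fun z => ?_
    obtain ⟨x, rfl⟩ := pr_surj K z
    have := h1 x x.2
    rw [dif_pos x.2] at this
    exact this

/-- the difference map on a factor -/
theorem diff_pr (σ : Γ ≃* Γ) (K : Subgroup Γ) (hK : ∀ x, σ x ∈ K ↔ x ∈ K) (m k : ℕ) (x : K) :
    ∃ y : K, (y : Γ) = (diff σ.toMonoidHom m)^[k] (x : Γ) ∧
      pr K y = (fun y : Mab K => ((fab σ K hK)^[m]) y - y)^[k] (pr K x) := by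
  have h1 : ∀ (m : ℕ) (x : K), ∃ y : K, (y : Γ) = (σ.toMonoidHom)^[m] (x : Γ) ∧
      pr K y = (fab σ K hK)^[m] (pr K x) := by
    intro m
    induction m with
    | zero => intro x; exact ⟨x, rfl, rfl⟩
    | succ m ih =>
      intro x
      obtain ⟨y, hy1, hy2⟩ := ih (res σ K hK x)
      refine ⟨y, ?_, ?_⟩
      · rw [Function.iterate_succ_apply, hy1]; rfl
      · rw [Function.iterate_succ_apply, hy2, fab_pr]
  induction k generalizing x with
  | zero => exact ⟨x, rfl, rfl⟩
  | succ k ih =>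
    obtain ⟨y, hy1, hy2⟩ := h1 m x
    obtain ⟨z, hz1, hz2⟩ := ih (x⁻¹ * y)
    refine ⟨z, ?_, ?_⟩
    · rw [Function.iterate_succ_apply, hz1]
      congr 1
      simp only [diff, Subgroup.coe_mul, Subgroup.coe_inv, hy1]
    · rw [Function.iterate_succ_apply, hz2]
      congr 1
      rw [pr_mul, hy2]
      have : pr K x⁻¹ = - pr K x := by simp [pr]
      rw [this]
      abel

theorem quasi_mul {M : Type} [AddCommGroup M] (f : M ≃+ M) (m k b : ℕ)
    (h : ∀ x : M, (fun y : M => (f^[m]) y - y)^[k] x = 0) (x : M) :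
    (fun y : M => (f^[m * b]) y - y)^[k] x = 0 := by
  let F : Module.End ℤ M := f.toIntLinearEquiv.toLinearMap
  have hFf : ∀ x, F x = f x := fun x => rfl
  rw [iter_eq F f hFf]
  obtain ⟨R, hR, hRc⟩ := exists_mul F m b
  rw [hR, hRc.mul_pow, Module.End.mul_apply]
  have := h x
  rw [iter_eq F f hFf] at this
  rw [this, map_zero]

/-- some power acts trivially modulo a subgroup of finite index -/
theorem exists_first (σ : Γ ≃* Γ) (C : Subgroup Γ) (hf : C.FiniteIndex)
    (hC : ∀ x, σ x ∈ C ↔ x ∈ C) :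
    ∃ m : ℕ, 0 < m ∧ ∀ b : ℕ, ∀ x : Γ, diff σ.toMonoidHom (m * b) x ∈ C := by
  have hfin : Finite (Γ ⧸ C) := Subgroup.finite_quotient_of_finiteIndex
  have hrel : ∀ x y : Γ, x⁻¹ * y ∈ C ↔ (σ x)⁻¹ * σ y ∈ C := by
    intro x y
    rw [← map_inv, ← map_mul, hC]
  let g : Γ ⧸ C → Γ ⧸ C := Quotient.map' (fun x => σ x) (by
    intro x y hxy
    rw [QuotientGroup.leftRel_apply] at hxy ⊢
    exact (hrel x y).mp hxy)
  have hg : ∀ x : Γ, g (QuotientGroup.mk x) = QuotientGroup.mk (σ x) := fun x => rfl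
  have hinj : Function.Injective g := by
    intro a b
    induction a using QuotientGroup.induction_on with | H x => ?_
    induction b using QuotientGroup.induction_on with | H y => ?_
    intro h
    rw [hg, hg, QuotientGroup.eq] at h
    rw [QuotientGroup.eq]
    exact (hrel x y).mpr h
  let e : Equiv.Perm (Γ ⧸ C) := Equiv.ofBijective g (Finite.injective_iff_bijective.mp hinj)
  obtain ⟨m, hm, hem⟩ := isOfFinOrder_iff_pow_eq_one.mp (isOfFinOrder_of_finite e)
  refine ⟨m, hm, fun b x => ?_⟩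
  have h1 : ∀ (k : ℕ) (x : Γ), (e ^ k) (QuotientGroup.mk x) =
      QuotientGroup.mk ((σ.toMonoidHom)^[k] x) := by
    intro k
    induction k with
    | zero => intro x; rfl
    | succ k ih =>
      intro x
      rw [pow_succ, Equiv.Perm.mul_apply, Function.iterate_succ_apply]
      exact ih (σ x)
  have h2 := h1 (m * b) x
  rw [pow_mul, hem, one_pow, Equiv.Perm.one_apply, QuotientGroup.eq] at h2
  exact h2

/-- the chain -/
def chain (C : Subgroup Γ) : ℕ → Subgroup Γ
  | 0 => ⊤
  | i + 1 => E C i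

/-- **Package GR1.** -/
theorem gr1 : S_KR → S_GR1 := by
  intro hkr Γ _ hΓ ⟨H, hH, hs⟩ σ hσ
  classical
  obtain ⟨C, hC1, hC2, hC3⟩ := charCore hΓ.fg H
  have hCs : Group.IsSolvable C := by
    have := hs
    exact Group.isSolvable_of_isSolvable_injective (Subgroup.inclusion_injective hC3)
  obtain ⟨l, hl⟩ := hCs.solvable
  have hEl : E C l = ⊥ := by rw [E_eq, hl, Subgroup.map_bot]
  have hch : ∀ i, ∀ x, σ x ∈ E C i ↔ x ∈ E C i := fun i x => char_mem (E_char C hC1 i) σ x
  obtain ⟨m₀, hm₀, hfirst⟩ := exists_first σ C hC2 (hch 0)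
  have hq := fun i => quasi hkr hΓ σ hσ (E C i) (hch i)
  choose m hm k hk using hq
  refine ⟨m₀ * ∏ i ∈ Finset.range l, m i, Nat.mul_pos hm₀ (Finset.prod_pos fun i _ => hm i),
    chain C, l + 1, ?_⟩
  constructor
  · rintro (_ | i)
    · exact inferInstanceAs (⊤ : Subgroup Γ).Normal
    · have := E_char C hC1 i
      exact Subgroup.normal_of_characteristic (E C i)
  · rintro (_ | i) x hx
    · exact Subgroup.mem_top _
    · exact (hch i x).mpr hx
  · rfl
  · exact hEl
  · rintro (_ | i)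
    · exact le_top
    · exact E_anti C hC1 i
  · intro x
    exact hfirst _ x
  · rintro (_ | i) hi
    · omega
    · exact le_refl _
  · rintro (_ | i) hi
    · omega
    · rcases lt_or_ge i l with hil | hil
      · refine ⟨k i, fun x hx => ?_⟩
        obtain ⟨c, hc⟩ := Finset.dvd_prod_of_mem m (Finset.mem_range.mpr hil)
        have hc' : m₀ * ∏ i ∈ Finset.range l, m i = m i * (m₀ * c) := by rw [hc]; ring
        rw [hc']
        obtain ⟨y, hy1, hy2⟩ := diff_pr σ (E C i) (hch i) (m i * (m₀ * c)) (k i) ⟨x, hx⟩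
        rw [quasi_mul _ _ _ _ (hk i)] at hy2
        rw [← hy1]
        exact pr_eq_zero _ y hy2
      · refine ⟨0, fun x hx => ?_⟩
        have h1 : E C i = ⊥ := E_bot C hEl i hil
        have h2 : x ∈ E C i := hx
        rw [h1, Subgroup.mem_bot] at h2
        rw [h2]
        exact Subgroup.one_mem _

end Pool.Agent.P8H4.PG


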